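import Pool.Agent.Q205.AGMMain

/-!
The noncommutative arithmetic-geometric mean inequality for norms of products (norm inside the
averages) fails for every length `m ≥ 4`, for all sufficiently large numbers `n` of matrices.
-/

open Matrix Finset
open scoped Matrix.Norms.L2Operator ComplexOrder Nat

namespace Pool.Agent.Results.MP_6169a9_an.FailsFromFour

/-- `W_m`: the average of the spectral norms of the products of length `m` over all `n ^ m`
tuples of indices (with replacement). -/
noncomputable def W (m : ℕ) {n d : ℕ} (A : Fin n → Matrix (Fin d) (Fin d) ℂ) : ℝ :=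
  (∑ s : Fin m → Fin n, ‖(List.ofFn fun k => A (s k)).prod‖) / (n : ℝ) ^ m

open Classical in
/-- `D_m`: the average of the spectral norms of the products of length `m` over the
`n! / (n - m)!` tuples of pairwise distinct indices (without replacement). -/
noncomputable def D (m : ℕ) {n d : ℕ} (A : Fin n → Matrix (Fin d) (Fin d) ℂ) : ℝ :=
  ((n - m)! : ℝ) / (n ! : ℝ) *
    ∑ s ∈ univ.filter (fun s : Fin m → Fin n => Function.Injective s),
      ‖(List.ofFn fun k => A (s k)).prod‖

/-- For every `m ≥ 4` and every sufficiently large `n` there are positive semidefinite real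
symmetric matrices `A_1, …, A_n` (of some size `d ≥ 1`) with `W_m < D_m`. -/
theorem result (m : ℕ) (hm : 4 ≤ m) : ∃ N : ℕ, m ≤ N ∧ ∀ n : ℕ, N ≤ n →
    ∃ d : ℕ, 1 ≤ d ∧ ∃ A : Fin n → Matrix (Fin d) (Fin d) ℂ,
      (∀ j, (A j).PosSemidef) ∧ (∀ j a b, (A j a b).im = 0) ∧ W m A < D m A := by
  obtain ⟨M, rfl⟩ : ∃ M, m = M + 1 := ⟨m - 1, by omega⟩
  exact Pool.Agent.Q205.AGM.main M (by omega)

end Pool.Agent.Results.MP_6169a9_an.FailsFromFour
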